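import Mathlib

namespace Pool.Agent.Results.MP_7f565b_co.Both

open Finset SimpleGraph

variable {V : Type}

/-- closed neighbourhoods: `v ∈ N[s]` -/
def cl (G : SimpleGraph V) (s v : V) : Prop := s = v ∨ G.Adj s v

/-- every element of `S` has a private neighbour for the relation `r` -/
def Irr (r : V → V → Prop) (S : Finset V) : Prop := ∀ s ∈ S, ∃ v, r s v ∧ ∀ t ∈ S, t ≠ s → ¬ r t v

/-- `S` dominates for the relation `r` -/
def Dom (r : V → V → Prop) (S : Finset V) : Prop := ∀ v, ∃ s ∈ S, r s v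

/-- lower irredundance number -/
noncomputable def ir (G : SimpleGraph V) : ℕ := sInf {k | ∃ S, Maximal (Irr (cl G)) S ∧ #S = k}

/-- domination number -/
noncomputable def gam (G : SimpleGraph V) : ℕ := sInf {k | ∃ S, Dom (cl G) S ∧ #S = k}

/-- edge-critical graphs for a parameter -/
def Crit (π : SimpleGraph V → ℕ) (G : SimpleGraph V) : Prop :=
  ∀ u v, u ≠ v → ¬ G.Adj u v → π (G ⊔ edge u v) < π G

section
variable [Fintype V] [DecidableEq V]

instance (r : V → V → Bool) (S : Finset V) : Decidable (Irr (fun a b => r a b = true) S) := by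
  unfold Irr; infer_instance

instance (r : V → V → Bool) (S : Finset V) : Decidable (Dom (fun a b => r a b = true) S) := by
  unfold Dom; infer_instance

omit [Fintype V] in
lemma max_of {r : V → V → Prop} {S : Finset V} (h : Irr r S) (h' : ∀ c ∉ S, ¬ Irr r (insert c S)) :
    Maximal (Irr r) S := by
  refine ⟨h, fun T hT hST c hc => by_contra fun h1 => h' c h1 fun s hs => ?_⟩
  have h2 : insert c S ⊆ T := insert_subset hc hST
  obtain ⟨v, h3, h4⟩ := hT s (h2 hs)
  exact ⟨v, h3, fun t ht => h4 t (h2 ht)⟩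

omit [Fintype V] in
lemma ir_le {G : SimpleGraph V} {r : V → V → Prop} (e : cl G = r) (S : Finset V) (h : Irr r S)
    (h' : ∀ c ∉ S, ¬ Irr r (insert c S)) : ir G ≤ #S :=
  Nat.sInf_le ⟨S, e ▸ max_of h h', rfl⟩

omit [Fintype V] [DecidableEq V] in
lemma gam_le {G : SimpleGraph V} {r : V → V → Prop} (e : cl G = r) (S : Finset V) (h : Dom r S) :
    gam G ≤ #S := Nat.sInf_le ⟨S, e ▸ h, rfl⟩

lemma le_ir [Nonempty V] {G : SimpleGraph V} {r : V → V → Prop} (e : cl G = r)
    (h : ∀ a b, Irr r {a, b} → ∃ c ∉ ({a, b} : Finset V), Irr r (insert c {a, b})) : 3 ≤ ir G := by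
  subst e
  obtain ⟨S, hS⟩ := (Set.toFinite {S | Irr (cl G) S}).exists_maximal ⟨∅, fun s hs => by simp at hs⟩
  refine le_csInf ⟨_, S, hS, rfl⟩ ?_
  rintro _ ⟨T, hT, rfl⟩
  by_contra h1
  have h2 : T = ∅ ∨ ∃ a b, T = {a, b} := by
    have : #T = 0 ∨ #T = 1 ∨ #T = 2 := by omega
    rcases this with h | h | h
    · exact Or.inl (card_eq_zero.mp h)
    · obtain ⟨a, rfl⟩ := card_eq_one.mp h
      exact Or.inr ⟨a, a, by simp⟩
    · obtain ⟨a, b, -, rfl⟩ := card_eq_two.mp h
      exact Or.inr ⟨a, b, rfl⟩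
  rcases h2 with rfl | ⟨a, b, rfl⟩
  · obtain ⟨a⟩ := ‹Nonempty V›
    have := hT.2 (y := {a}) (fun s hs => ⟨s, Or.inl rfl, by simp_all⟩) (empty_subset _)
    simp at this
  · obtain ⟨c, h3, h4⟩ := h a b hT.1
    exact h3 (hT.2 h4 (subset_insert _ _) (mem_insert_self _ _))

lemma le_gam {G : SimpleGraph V} {r : V → V → Prop} (e : cl G = r) (k : ℕ) (hk : k ≤ Fintype.card V)
    (h : ∀ S, #S = k → ¬ Dom r S) : k + 1 ≤ gam G := by
  subst e
  refine le_csInf ⟨_, univ, fun v => ⟨v, mem_univ _, Or.inl rfl⟩, rfl⟩ ?_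
  rintro _ ⟨T, hT, rfl⟩
  by_contra h1
  obtain ⟨S, h2, h3⟩ := exists_superset_card_eq (s := T) (by omega) hk
  exact h S h3 fun v => (hT v).imp fun s hs => ⟨h2 hs.1, hs.2⟩

end

/-- graphs from bit masks -/
def gr (n m : ℕ) : SimpleGraph (Fin n) := fromRel fun a b => m.testBit (a * n + b) = true

/-- closed neighbourhood test -/
def c0 (n m : ℕ) (a b : Fin n) : Bool := a == b || m.testBit (a * n + b) || m.testBit (b * n + a)

/-- closed neighbourhood test with an extra edge -/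
def c1 (n m : ℕ) (u v a b : Fin n) : Bool := c0 n m a b || (a == u && b == v) || (a == v && b == u)

lemma e0 (n m : ℕ) : cl (gr n m) = fun a b => c0 n m a b = true := by
  ext a b; by_cases h : a = b <;> simp [cl, gr, c0, h]

lemma e1 (n m : ℕ) (u v : Fin n) : cl (gr n m ⊔ edge u v) = fun a b => c1 n m u v a b = true := by
  ext a b; by_cases h : a = b <;> simp [cl, gr, c0, c1, h, edge_adj, or_assoc]

lemma nadj {n m : ℕ} {u v : Fin n} (h : u ≠ v) (h' : ¬ (gr n m).Adj u v) : c0 n m u v = false := by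
  simpa [gr, c0, h] using h'

/-- first graph -/
def m1 : ℕ := 427276758142955105638702789747959300

/-- second graph -/
def m2 : ℕ := 303396273546509609652277691304

lemma a1 : ∀ a b c : Fin 11, ¬ Dom (fun a b => c0 11 m1 a b = true) {a, b, c} := by decide +kernel

lemma a2 : ∀ u v : Fin 11, c0 11 m1 u v = false →
    ∃ b c : Fin 11, Dom (fun a b => c1 11 m1 u v a b = true) {u, b, c} ∨
      Dom (fun a b => c1 11 m1 u v a b = true) {v, b, c} := by decide +kernel

lemma a3 : ∀ a b : Fin 11, Irr (fun a b => c1 11 m1 0 1 a b = true) {a, b} →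
    ∃ c ∉ ({a, b} : Finset (Fin 11)), Irr (fun a b => c1 11 m1 0 1 a b = true) (insert c {a, b}) := by
  decide +kernel

lemma b1 : ∀ a b : Fin 10, Irr (fun a b => c0 10 m2 a b = true) {a, b} →
    ∃ c ∉ ({a, b} : Finset (Fin 10)), Irr (fun a b => c0 10 m2 a b = true) (insert c {a, b}) := by
  decide +kernel

lemma b2 : ∀ u v : Fin 10, c0 10 m2 u v = false →
    ∃ a b : Fin 10, Irr (fun a b => c1 10 m2 u v a b = true) {a, b} ∧ ∀ c ∉ ({a, b} : Finset (Fin 10)),
      ¬ Irr (fun a b => c1 10 m2 u v a b = true) (insert c {a, b}) := by decide +kernel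

lemma b3 : ∀ a b : Fin 10, ¬ Dom (fun a b => c1 10 m2 0 4 a b = true) {a, b} := by decide +kernel

theorem result : (∃ (n : ℕ) (G : SimpleGraph (Fin n)), Crit gam G ∧ ¬ Crit ir G) ∧
    ∃ (n : ℕ) (G : SimpleGraph (Fin n)), Crit ir G ∧ ¬ Crit gam G := by
  refine ⟨⟨11, gr 11 m1, fun u v h h' => ?_, fun h => ?_⟩, 10, gr 10 m2, fun u v h h' => ?_,
    fun h => ?_⟩
  · have h1 := le_gam (e0 11 m1) 3 (by simp) fun S hS => by
      obtain ⟨a, b, c, -, -, -, rfl⟩ := card_eq_three.mp hS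
      exact a1 a b c
    obtain ⟨b, c, h2 | h2⟩ := a2 u v (nadj h h') <;>
      exact ((gam_le (e1 11 m1 u v) _ h2).trans card_le_three).trans_lt h1
  · have h1 := h 0 1 (by decide) (by simp [gr]; decide +kernel)
    have h2 := le_ir (e1 11 m1 0 1) a3
    have h3 := (ir_le (e0 11 m1) {3, 5, 8} (by decide +kernel) (by decide +kernel)).trans
      card_le_three
    omega
  · obtain ⟨a, b, h2, h3⟩ := b2 u v (nadj h h')
    exact ((ir_le (e1 10 m2 u v) _ h2 h3).trans card_le_two).trans_lt (le_ir (e0 10 m2) b1)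
  · have h1 := h 0 4 (by decide) (by simp [gr]; decide +kernel)
    have h2 := le_gam (e1 10 m2 0 4) 2 (by simp) fun S hS => by
      obtain ⟨a, b, -, rfl⟩ := card_eq_two.mp hS
      exact b3 a b
    have h3 := (gam_le (e0 10 m2) {0, 1, 2} (by decide +kernel)).trans card_le_three
    omega

end Pool.Agent.Results.MP_7f565b_co.Both
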